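import Mathlib

/-! Numerics for the size of the switched set in the theorem of Chen: a Riemann sum with `60 x 10` boxes. -/

set_option autoImplicit false

namespace Pool.Agent.J4.H52.CN

open Finset

lemma log_one_add_le {x : ℝ} (hx : 0 ≤ x) : Real.log (1 + x) ≤ x * (6 + x) / (6 + 4 * x) := by
  have hmono : MonotoneOn (fun x : ℝ => x * (6 + x) / (6 + 4 * x) - Real.log (1 + x)) (Set.Ici 0) := by
    have hd : ∀ x : ℝ, 0 ≤ x → HasDerivAt (fun x : ℝ => x * (6 + x) / (6 + 4 * x) - Real.log (1 + x))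
        (((1 * (6 + x) + x * 1) * (6 + 4 * x) - x * (6 + x) * (4 * 1)) / (6 + 4 * x) ^ 2 -
          1 / (1 + x)) x := by
      intro x hx
      have h1 : HasDerivAt (fun x : ℝ => x * (6 + x)) (1 * (6 + x) + x * 1) x :=
        (hasDerivAt_id x).mul ((hasDerivAt_id x).const_add 6)
      have h2 : HasDerivAt (fun x : ℝ => 6 + 4 * x) (4 * 1) x :=
        ((hasDerivAt_id x).const_mul 4).const_add 6
      have h3 : HasDerivAt (fun x : ℝ => Real.log (1 + x)) (1 / (1 + x)) x := by
        have := ((hasDerivAt_id x).const_add 1).log (by simp only [id]; positivity)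
        simpa using this
      exact (h1.div h2 (by positivity)).sub h3
    refine monotoneOn_of_deriv_nonneg (convex_Ici 0) ?_ ?_ ?_
    · intro y hy
      exact (hd y hy).continuousAt.continuousWithinAt
    · intro y hy
      rw [interior_Ici] at hy
      exact (hd y (le_of_lt hy)).differentiableAt.differentiableWithinAt
    · intro y hy
      rw [interior_Ici] at hy
      have hy0 : (0 : ℝ) < y := hy
      rw [(hd y hy0.le).deriv]
      have e : ((1 * (6 + y) + y * 1) * (6 + 4 * y) - y * (6 + y) * (4 * 1)) / (6 + 4 * y) ^ 2 -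
          1 / (1 + y) = 4 * y ^ 3 / ((6 + 4 * y) ^ 2 * (1 + y)) := by
        field_simp
        ring
      rw [e]
      positivity
  have h0 := hmono (Set.mem_Ici.2 le_rfl) (Set.mem_Ici.2 hx) hx
  simp only [add_zero, Real.log_one, zero_mul, zero_div, sub_zero] at h0
  linarith

lemma log_div_le {a b : ℝ} (ha : 0 < a) (hab : a ≤ b) :
    Real.log (b / a) ≤ (b - a) * (5 * a + b) / (2 * a * (a + 2 * b)) := by
  have h := log_one_add_le (x := (b - a) / a) (div_nonneg (by linarith) ha.le)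
  have e1 : 1 + (b - a) / a = b / a := by
    field_simp
    ring
  have e2 : (b - a) / a * (6 + (b - a) / a) / (6 + 4 * ((b - a) / a)) =
      (b - a) * (5 * a + b) / (2 * a * (a + 2 * b)) := by
    have h3 : 0 < 6 + 4 * ((b - a) / a) := by
      have : 0 ≤ (b - a) / a := div_nonneg (by linarith) ha.le
      linarith
    have h4 : 0 < a + 2 * b := by linarith
    rw [div_eq_div_iff h3.ne' (by positivity)]
    field_simp
    ring
  rw [e1, e2] at h
  exact h

/-- the width of the inner boxes -/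
def wd (i : ℕ) : ℕ := 601 - 10 * i

/-- the left ends of the inner boxes, in units of `1/57600` -/
def av (i j : ℕ) : ℕ := 19200 + wd i * j

/-- the denominators -/
def Dv (i j : ℕ) : ℕ := 31000 - 200 * i - wd i * (j + 1)

/-- numerator of `log (b/a) + 10^(-5)` -/
def nm (a b : ℕ) : ℕ := (b - a) * (5 * a + b) * 10 ^ 5 + 2 * a * (a + 2 * b)

/-- denominator of `log (b/a) + 10^(-5)` -/
def dn (a b : ℕ) : ℕ := 2 * a * (a + 2 * b) * 10 ^ 5

/-- sums by recursion -/
def rs (f : ℕ → ℕ) : ℕ → ℕ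
  | 0 => 0
  | n + 1 => rs f n + f n

/-- rounded inner terms -/
def sN (i j : ℕ) : ℕ := 10 ^ 9 * nm (av i j) (av i (j + 1)) * 57600 / (dn (av i j) (av i (j + 1)) * Dv i j) + 1

/-- rounded outer terms -/
def tN (i : ℕ) : ℕ := nm (36 + i) (37 + i) * rs (sN i) 10 / dn (36 + i) (37 + i) + 1

lemma rs_eq (f : ℕ → ℕ) (n : ℕ) : rs f n = ∑ i ∈ range n, f i := by
  induction n with
  | zero => simp [rs]
  | succ n ih => rw [rs, ih, Finset.sum_range_succ]

theorem total_le : rs tN 60 ≤ 374800000 := by decide +kernel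

lemma div_le_ceil (A B : ℕ) (hB : 0 < B) : (A : ℝ) / B ≤ ((A / B + 1 : ℕ) : ℝ) := by
  rw [div_le_iff₀ (by exact_mod_cast hB)]
  have h1 := Nat.lt_div_mul_add hB (a := A)
  have h2 : A ≤ (A / B + 1) * B := by
    rw [add_mul, one_mul]
    exact h1.le
  exact_mod_cast h2

lemma log_nm {a b : ℕ} (ha : 0 < a) (hab : a ≤ b) :
    Real.log ((b : ℝ) / a) + 1 / 10 ^ 5 ≤ (nm a b : ℝ) / dn a b := by
  have haR : (0 : ℝ) < a := by exact_mod_cast ha
  have habR : (a : ℝ) ≤ b := by exact_mod_cast hab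
  have h1 := log_div_le haR habR
  unfold nm dn
  rw [Nat.cast_add, Nat.cast_mul, Nat.cast_mul, Nat.cast_sub hab]
  push_cast
  have e : ((b - a : ℝ) * (5 * a + b) * 10 ^ 5 + 2 * a * (a + 2 * b)) / (2 * a * (a + 2 * b) * 10 ^ 5) =
      (b - a) * (5 * a + b) / (2 * a * (a + 2 * b)) + 1 / 10 ^ 5 := by
    have h4 : (0 : ℝ) < a + 2 * b := by linarith
    field_simp
  norm_num at e h1 ⊢
  rw [e]
  linarith

lemma dn_pos {a b : ℕ} (ha : 0 < a) : 0 < dn a b := by
  unfold dn
  positivity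

lemma Dv_cast {i j : ℕ} (hi : i < 60) (hj : j < 10) :
    (Dv i j : ℝ) / 57600 = 1 - (37 + i : ℝ) / 288 - (av i (j + 1) : ℝ) / 57600 ∧ 0 < Dv i j := by
  have h1 : wd i ≤ 601 := by
    unfold wd
    omega
  have h2 : wd i * (j + 1) ≤ 601 * 10 := Nat.mul_le_mul h1 (by omega)
  have h3 : 200 * i + wd i * (j + 1) + 1 ≤ 31000 := by omega
  constructor
  · unfold Dv av
    rw [Nat.cast_sub (by omega), Nat.cast_sub (by omega)]
    push_cast
    ring
  · unfold Dv
    omega

/-- the numerical bound -/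
theorem numeric : ∑ i ∈ range 60, (Real.log ((37 + i : ℝ) / (36 + i)) + 1 / 10 ^ 5) *
    ∑ j ∈ range 10, (Real.log ((av i (j + 1) : ℝ) / av i j) + 1 / 10 ^ 5) *
      (1 / (1 - (37 + i : ℝ) / 288 - (av i (j + 1) : ℝ) / 57600)) ≤ 3748 / 10000 := by
  have hin : ∀ i : ℕ, i < 60 → ∑ j ∈ range 10, (Real.log ((av i (j + 1) : ℝ) / av i j) + 1 / 10 ^ 5) *
      (1 / (1 - (37 + i : ℝ) / 288 - (av i (j + 1) : ℝ) / 57600)) ≤ (rs (sN i) 10 : ℝ) / 10 ^ 9 := by
    intro i hi
    rw [rs_eq, Nat.cast_sum, sum_div]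
    refine sum_le_sum fun j hj => ?_
    rw [mem_range] at hj
    obtain ⟨h1, h2⟩ := Dv_cast hi hj
    rw [← h1]
    have ha : 0 < av i j := by
      unfold av
      omega
    have hab : av i j ≤ av i (j + 1) := by
      unfold av
      have := Nat.mul_le_mul_left (wd i) (by omega : j ≤ j + 1)
      omega
    have h3 := log_nm ha hab
    have hD : (0 : ℝ) < Dv i j := by exact_mod_cast h2
    have hdn : (0 : ℝ) < dn (av i j) (av i (j + 1)) := by exact_mod_cast dn_pos ha
    have h4 := div_le_ceil (10 ^ 9 * nm (av i j) (av i (j + 1)) * 57600)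
      (dn (av i j) (av i (j + 1)) * Dv i j) (Nat.mul_pos (dn_pos ha) h2)
    rw [le_div_iff₀ (by positivity)]
    unfold sN
    refine le_trans ?_ h4
    have h5 : (0 : ℝ) ≤ 1 / ((Dv i j : ℝ) / 57600) := by positivity
    refine (mul_le_mul_of_nonneg_right (mul_le_mul_of_nonneg_right h3 h5) (by positivity)).trans
      (le_of_eq ?_)
    push_cast
    field_simp
    norm_num
  have hin0 : ∀ i : ℕ, i < 60 → 0 ≤ Real.log ((37 + i : ℝ) / (36 + i)) + 1 / 10 ^ 5 := by
    intro i _
    have : 0 ≤ Real.log ((37 + i : ℝ) / (36 + i)) := by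
      refine Real.log_nonneg ?_
      rw [le_div_iff₀ (by positivity)]
      linarith
    exact add_nonneg this (by positivity)
  have h1 : ∀ i ∈ range 60, (Real.log ((37 + i : ℝ) / (36 + i)) + 1 / 10 ^ 5) *
      ∑ j ∈ range 10, (Real.log ((av i (j + 1) : ℝ) / av i j) + 1 / 10 ^ 5) *
      (1 / (1 - (37 + i : ℝ) / 288 - (av i (j + 1) : ℝ) / 57600)) ≤ (tN i : ℝ) / 10 ^ 9 := by
    intro i hi
    rw [mem_range] at hi
    refine (mul_le_mul_of_nonneg_left (hin i hi) (hin0 i hi)).trans ?_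
    have h2 := log_nm (a := 36 + i) (b := 37 + i) (by omega) (by omega)
    push_cast at h2
    have hdn : (0 : ℝ) < dn (36 + i) (37 + i) := by exact_mod_cast dn_pos (by omega : 0 < 36 + i)
    have h3 : (0 : ℝ) ≤ (rs (sN i) 10 : ℝ) / 10 ^ 9 := by positivity
    refine (mul_le_mul_of_nonneg_right h2 h3).trans ?_
    have h4 := div_le_ceil (nm (36 + i) (37 + i) * rs (sN i) 10) (dn (36 + i) (37 + i))
      (dn_pos (by omega))
    unfold tN
    rw [← mul_div_assoc]
    refine div_le_div_of_nonneg_right (le_trans (le_of_eq ?_) h4) (by positivity)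
    push_cast
    ring
  refine (sum_le_sum h1).trans ?_
  rw [← sum_div, ← Nat.cast_sum, ← rs_eq]
  rw [div_le_iff₀ (by positivity)]
  have h2 : ((rs tN 60 : ℕ) : ℝ) ≤ 374800000 := by exact_mod_cast total_le
  refine h2.trans ?_
  norm_num

end Pool.Agent.J4.H52.CN
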