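import Mathlib
import Pool.Agent.J4.H52.CN.Num
import Pool.Agent.Helper923.PNT
import Pool.Agent.W378.DC.MP
import Pool.Agent.J4.H38.CH.Defs

set_option autoImplicit false

/-! CNT: the size of the switched set. -/

namespace Pool.Agent.J4.H52.CN

open Finset Filter Pool.Agent.J4.H38.CH
open Pool.Agent.W23.DC (tt pr)
open Pool.Agent.W378.DC (MP)

lemma mem_pr' {N : ℕ} {u v : ℝ} {p : ℕ} : p ∈ pr N u v ↔ (1 ≤ p ∧ p ≤ N) ∧ p.Prime ∧ u ≤ tt N p ∧ tt N p < v := by
  unfold pr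
  rw [mem_filter, mem_Icc]

lemma pr_split (N : ℕ) {u v w : ℝ} (huv : u ≤ v) (hvw : v ≤ w) (f : ℕ → ℝ) :
    ∑ p ∈ pr N u w, f p = ∑ p ∈ pr N u v, f p + ∑ p ∈ pr N v w, f p := by
  classical
  have h : pr N u w = pr N u v ∪ pr N v w := by
    ext p
    rw [mem_union, mem_pr', mem_pr', mem_pr']
    constructor
    · rintro ⟨h1, h2, h3, h4⟩
      rcases lt_or_ge (tt N p) v with h5 | h5
      · exact Or.inl ⟨h1, h2, h3, h5⟩
      · exact Or.inr ⟨h1, h2, h5, h4⟩
    · rintro (⟨h1, h2, h3, h4⟩ | ⟨h1, h2, h3, h4⟩)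
      · exact ⟨h1, h2, h3, lt_of_lt_of_le h4 hvw⟩
      · exact ⟨h1, h2, huv.trans h3, h4⟩
  rw [h, sum_union]
  rw [disjoint_left]
  intro p h1 h2
  exact absurd (mem_pr'.1 h1).2.2.2 (not_lt.2 (mem_pr'.1 h2).2.2.1)

/-- sums over consecutive boxes -/
lemma box_sum (N : ℕ) (v γ : ℕ → ℝ) (n : ℕ) (f g : ℕ → ℝ) (hv : ∀ j < n, v j ≤ v (j + 1))
    (h : ∀ j < n, ∀ p ∈ pr N (v j) (v (j + 1)), f p ≤ g p * γ j) :
    ∑ p ∈ pr N (v 0) (v n), f p ≤ ∑ j ∈ range n, (∑ p ∈ pr N (v j) (v (j + 1)), g p) * γ j := by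
  induction n with
  | zero =>
    have : pr N (v 0) (v 0) = ∅ := by
      ext p
      rw [mem_pr']
      constructor
      · rintro ⟨-, -, h3, h4⟩
        exact absurd h4 (not_lt.2 h3)
      · intro h5
        simp at h5
    rw [this]
    simp
  | succ n ih =>
    have h0 : ∀ m ≤ n, v 0 ≤ v m := by
      intro m hm
      induction m with
      | zero => exact le_rfl
      | succ m ih2 => exact (ih2 (by omega)).trans (hv m (by omega))
    rw [pr_split N (h0 n le_rfl) (hv n (by omega)), sum_range_succ]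
    refine add_le_add (ih (fun j hj => hv j (by omega)) (fun j hj => h j (by omega))) ?_
    rw [sum_mul]
    exact sum_le_sum fun p hp => h n (by omega) p hp

/-- the upper bound in the theorem of Mertens -/
lemma mert : ∀ᶠ N : ℕ in atTop, ∀ a b : ℝ, 1 / 8 ≤ a → a ≤ b → b ≤ 1 →
    ∑ p ∈ pr N a b, 1 / (p : ℝ) ≤ Real.log (b / a) + 1 / 10 ^ 5 := by
  obtain ⟨N₀, h⟩ := MP (1 / 8) (1 / 10 ^ 5) (by norm_num) (by norm_num)
  filter_upwards [eventually_ge_atTop N₀] with N hN a b ha hab hb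
  have h1 := (abs_le.1 (h N hN a b ha hab hb)).2
  have h2 : ∑ p ∈ pr N a b, 1 / (p : ℝ) ≤ ∑ p ∈ pr N a b, 1 / ((p : ℝ) - 1) := by
    refine sum_le_sum fun p hp => ?_
    have hp2 : (2 : ℝ) ≤ p := by exact_mod_cast (mem_pr'.1 hp).2.1.two_le
    exact one_div_le_one_div_of_le (by linarith) (by linarith)
  linarith

/-- the inner sum -/
noncomputable def G (i : ℕ) : ℝ := ∑ j ∈ range 10, (Real.log ((av i (j + 1) : ℝ) / av i j) + 1 / 10 ^ 5) *
      (1 / (1 - (37 + i : ℝ) / 288 - (av i (j + 1) : ℝ) / 57600))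

lemma av_mono (i j : ℕ) : av i j ≤ av i (j + 1) := by
  unfold av
  have := Nat.mul_le_mul_left (wd i) (by omega : j ≤ j + 1)
  omega

lemma av_le {i j : ℕ} (hj : j ≤ 10) : av i j ≤ 25210 := by
  unfold av
  have h1 : wd i ≤ 601 := by
    unfold wd
    omega
  have h2 : wd i * j ≤ 601 * 10 := Nat.mul_le_mul h1 hj
  omega

lemma inner {N : ℕ} (hM : ∀ a b : ℝ, 1 / 8 ≤ a → a ≤ b → b ≤ 1 →
    ∑ p ∈ pr N a b, 1 / (p : ℝ) ≤ Real.log (b / a) + 1 / 10 ^ 5) {i : ℕ} (hi : i < 60) {τ : ℝ}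
    (hτ : τ < (37 + i : ℝ) / 288) :
    ∑ p ∈ pr N (1 / 3) ((av i 10 : ℝ) / 57600), 1 / (p : ℝ) * (1 / (1 - τ - tt N p)) ≤ G i := by
  have h1 := box_sum N (fun j => (av i j : ℝ) / 57600)
    (fun j => 1 / (1 - (37 + i : ℝ) / 288 - (av i (j + 1) : ℝ) / 57600)) 10
    (fun p => 1 / (p : ℝ) * (1 / (1 - τ - tt N p))) (fun p => 1 / (p : ℝ))
    (fun j _ => div_le_div_of_nonneg_right (by exact_mod_cast av_mono i j) (by norm_num))
    (by
      intro j hj p hp
      obtain ⟨h2, h3⟩ := Dv_cast hi hj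
      refine mul_le_mul_of_nonneg_left (one_div_le_one_div_of_le ?_ ?_) (by positivity)
      · rw [← h2]
        have : (0 : ℝ) < Dv i j := by exact_mod_cast h3
        positivity
      · have := (mem_pr'.1 hp).2.2.2
        linarith)
  have h0 : (av i 0 : ℝ) / 57600 = 1 / 3 := by
    unfold av
    norm_num
  rw [h0] at h1
  refine h1.trans ?_
  unfold G
  refine sum_le_sum fun j hj => ?_
  rw [mem_range] at hj
  obtain ⟨h2, h3⟩ := Dv_cast hi hj
  have hpos : (0 : ℝ) < av i j := by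
    have : 0 < av i j := by
      unfold av
      omega
    exact_mod_cast this
  refine mul_le_mul_of_nonneg_right ?_ ?_
  · have h4 := hM ((av i j : ℝ) / 57600) ((av i (j + 1) : ℝ) / 57600) ?_ ?_ ?_
    · have e : (av i (j + 1) : ℝ) / 57600 / ((av i j : ℝ) / 57600) = (av i (j + 1) : ℝ) / av i j := by
        field_simp
      rw [e] at h4
      exact h4
    · have : (19200 : ℝ) ≤ av i j := by
        have : 19200 ≤ av i j := by
          unfold av
          omega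
        exact_mod_cast this
      linarith
    · exact div_le_div_of_nonneg_right (by exact_mod_cast av_mono i j) (by norm_num)
    · have : (av i (j + 1) : ℝ) ≤ 25210 := by exact_mod_cast av_le (by omega)
      linarith
  · rw [← h2]
    positivity

lemma G_nonneg {i : ℕ} (hi : i < 60) : 0 ≤ G i := by
  unfold G
  refine sum_nonneg fun j hj => ?_
  rw [mem_range] at hj
  obtain ⟨h2, h3⟩ := Dv_cast hi hj
  rw [← h2]
  have hpos : (0 : ℝ) < av i j := by
    have : 0 < av i j := by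
      unfold av
      omega
    exact_mod_cast this
  have h4 : 0 ≤ Real.log ((av i (j + 1) : ℝ) / av i j) := by
    refine Real.log_nonneg ?_
    rw [le_div_iff₀ hpos, one_mul]
    exact_mod_cast av_mono i j
  positivity

lemma outer {N : ℕ} (hM : ∀ a b : ℝ, 1 / 8 ≤ a → a ≤ b → b ≤ 1 →
    ∑ p ∈ pr N a b, 1 / (p : ℝ) ≤ Real.log (b / a) + 1 / 10 ^ 5) (K : ℝ) (hK : 0 ≤ K) (f : ℕ → ℝ)
    (hf : ∀ i : ℕ, i < 60 → ∀ p ∈ pr N ((36 + i : ℝ) / 288) ((37 + i : ℝ) / 288), f p ≤ 1 / (p : ℝ) * (K * G i)) :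
    ∑ p ∈ pr N (1 / 8) (1 / 3), f p ≤ K * (3748 / 10000) := by
  have h1 := box_sum N (fun i => (36 + i : ℝ) / 288) (fun i => K * G i) 60 f (fun p => 1 / (p : ℝ))
    (fun j _ => by
      push_cast
      linarith)
    (by
      intro i hi p hp
      refine hf i hi p ?_
      have e : (36 + ((i + 1 : ℕ) : ℝ)) / 288 = (37 + i : ℝ) / 288 := by
        push_cast
        ring
      rwa [e] at hp)
  have e0 : (36 + ((0 : ℕ) : ℝ)) / 288 = 1 / 8 := by norm_num
  have e1 : (36 + ((60 : ℕ) : ℝ)) / 288 = 1 / 3 := by norm_num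
  rw [e0, e1] at h1
  refine h1.trans ?_
  have h2 : ∀ i ∈ range 60, (∑ p ∈ pr N ((36 + i : ℝ) / 288) ((36 + ((i + 1 : ℕ) : ℝ)) / 288), 1 / (p : ℝ)) *
      (K * G i) ≤ K * ((Real.log ((37 + i : ℝ) / (36 + i)) + 1 / 10 ^ 5) * G i) := by
    intro i hi
    rw [mem_range] at hi
    have hiR : (i : ℝ) ≤ 59 := by exact_mod_cast (by omega : i ≤ 59)
    have hi0 : (0 : ℝ) ≤ i := Nat.cast_nonneg i
    have h3 := hM ((36 + i : ℝ) / 288) ((36 + ((i + 1 : ℕ) : ℝ)) / 288) (by linarith)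
      (by push_cast; linarith) (by push_cast; linarith)
    have e : (36 + ((i + 1 : ℕ) : ℝ)) / 288 / ((36 + i : ℝ) / 288) = (37 + i : ℝ) / (36 + i) := by
      push_cast
      rw [div_div_div_cancel_right₀ (by norm_num)]
      ring
    rw [e] at h3
    have := mul_le_mul_of_nonneg_right h3 (mul_nonneg hK (G_nonneg hi))
    linarith
  refine (sum_le_sum h2).trans ?_
  rw [← mul_sum]
  refine mul_le_mul_of_nonneg_left ?_ hK
  have := numeric
  unfold G
  exact this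

lemma tt_lt {N : ℕ} (hN : 2 ≤ N) {p : ℕ} (hp : 0 < p) (u : ℝ) : tt N p < u ↔ (p : ℝ) < (N : ℝ) ^ u := by
  have hL : 0 < Real.log N := Real.log_pos (by exact_mod_cast (by omega : 1 < N))
  have hN0 : (0 : ℝ) < N := by exact_mod_cast (by omega : 0 < N)
  have hp0 : (0 : ℝ) < p := by exact_mod_cast hp
  unfold tt
  rw [div_lt_iff₀ hL, Real.rpow_def_of_pos hN0, ← Real.log_lt_iff_lt_exp hp0, mul_comm]

lemma le_tt {N : ℕ} (hN : 2 ≤ N) {p : ℕ} (hp : 0 < p) (u : ℝ) : u ≤ tt N p ↔ (N : ℝ) ^ u ≤ (p : ℝ) := by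
  rw [← not_lt, ← not_lt, tt_lt hN hp]

/-- the prime number theorem, upper bound -/
lemma pnt_up : ∃ x₀ : ℝ, 2 ≤ x₀ ∧ ∀ x : ℝ, x₀ ≤ x →
    (Nat.primeCounting ⌊x⌋₊ : ℝ) ≤ 201 / 200 * (x / Real.log x) := by
  have h := Pool.Agent.Helper923.PNT.pi_tendsto
  have h1 := h.eventually_le_const (show (1 : ℝ) < 201 / 200 by norm_num)
  obtain ⟨x₀, hx⟩ := eventually_atTop.1 h1
  refine ⟨max x₀ 2, le_max_right _ _, fun x hx2 => ?_⟩
  have h2 := hx x ((le_max_left _ _).trans hx2)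
  have hx0 : (2 : ℝ) ≤ x := (le_max_right _ _).trans hx2
  have hl : 0 < Real.log x := Real.log_pos (by linarith)
  rw [div_le_iff₀ (by linarith)] at h2
  rw [← mul_div_assoc, le_div_iff₀ hl]
  exact h2

open Classical in
/-- the primes `p₂` with `N^(1/3) ≤ p₂` and `p₁ p₂² ≤ (201/200) N` -/
noncomputable def P2 (N p1 : ℕ) : Finset ℕ :=
  (Icc 1 N).filter (fun p => p.Prime ∧ (N : ℝ) ^ (1 / 3 : ℝ) ≤ p ∧ (p : ℝ) ^ 2 * p1 ≤ 201 / 200 * N)

/-- the bound for the number of the products `p₂ p₃` -/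
noncomputable def fP (N p1 : ℕ) : ℝ :=
  ∑ p ∈ P2 N p1, (Nat.primeCounting ⌊(201 / 200 * N : ℝ) / (p1 * p)⌋₊ : ℝ)

lemma fP_nonneg (N p1 : ℕ) : 0 ≤ fP N p1 := sum_nonneg fun _ _ => Nat.cast_nonneg _

lemma c2_le {N j p1 : ℕ} (hN : 1 ≤ N) (h : p1 ∈ c1 N j) : ((c2 N j).card : ℝ) ≤ fP N p1 := by
  classical
  unfold c1 at h
  rw [mem_filter, mem_Ico] at h
  obtain ⟨⟨h1, h2⟩, h3, h4⟩ := h
  have hNR : (0 : ℝ) < N := by exact_mod_cast hN
  have hp0 : (0 : ℝ) < p1 := by exact_mod_cast h3.pos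
  have hX : (0 : ℝ) < (N : ℝ) ^ (1 / 8 : ℝ) * (201 / 200 : ℝ) ^ j := by positivity
  have hgr0 : 0 < gr N j := Nat.ceil_pos.2 hX
  have hgrR : (0 : ℝ) < gr N j := by exact_mod_cast hgr0
  have h5 : (p1 : ℝ) < (N : ℝ) ^ (1 / 8 : ℝ) * (201 / 200 : ℝ) ^ (j + 1) := Nat.lt_ceil.1 h2
  have h6 : (N : ℝ) ^ (1 / 8 : ℝ) * (201 / 200 : ℝ) ^ j ≤ gr N j := Nat.le_ceil _
  have h7 : (p1 : ℝ) ≤ 201 / 200 * gr N j := by
    rw [pow_succ] at h5
    linarith
  have hc : ∀ c ∈ c2 N j, c ≤ N ∧ (c : ℝ) * p1 ≤ 201 / 200 * N := by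
    intro c hc
    unfold c2 at hc
    rw [mem_filter, mem_Icc] at hc
    have h8 : c * gr N j ≤ N := (Nat.le_div_iff_mul_le hgr0).1 hc.1.2
    refine ⟨(Nat.le_mul_of_pos_right c hgr0).trans h8, ?_⟩
    have h9 : (c : ℝ) * gr N j ≤ N := by exact_mod_cast h8
    have hc0 : (0 : ℝ) ≤ c := Nat.cast_nonneg c
    nlinarith
  have hsub : c2 N j ⊆ (P2 N p1).biUnion fun p =>
      ((range (⌊(201 / 200 * N : ℝ) / (p1 * p)⌋₊ + 1)).filter Nat.Prime).image fun q => p * q := by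
    intro c hcm
    obtain ⟨g1, g2⟩ := hc c hcm
    unfold c2 at hcm
    rw [mem_filter, mem_Icc] at hcm
    obtain ⟨⟨k1, -⟩, p, q, hp, hq, k2, k3, rfl⟩ := hcm
    have hpR : (0 : ℝ) < p := by exact_mod_cast hp.pos
    have hpq : (p : ℝ) ≤ q := by exact_mod_cast k3
    push_cast at g2
    rw [mem_biUnion]
    refine ⟨p, ?_, ?_⟩
    · unfold P2
      rw [mem_filter, mem_Icc]
      refine ⟨⟨hp.pos, (Nat.le_mul_of_pos_right p hq.pos).trans g1⟩, hp, k2, ?_⟩
      refine le_trans ?_ g2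
      rw [pow_two]
      exact mul_le_mul_of_nonneg_right (mul_le_mul_of_nonneg_left hpq hpR.le) hp0.le
    · rw [mem_image]
      refine ⟨q, ?_, rfl⟩
      rw [mem_filter, mem_range, Nat.lt_add_one_iff]
      refine ⟨Nat.le_floor ?_, hq⟩
      rw [le_div_iff₀ (by positivity)]
      linarith
  have h10 : (c2 N j).card ≤ ∑ p ∈ P2 N p1, Nat.primeCounting ⌊(201 / 200 * N : ℝ) / (p1 * p)⌋₊ := by
    refine (card_le_card hsub).trans (card_biUnion_le.trans (sum_le_sum fun p _ => ?_))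
    refine card_image_le.trans (le_of_eq ?_)
    rw [Nat.primeCounting, Nat.primeCounting', Nat.count_eq_card_filter_range]
  unfold fP
  exact_mod_cast h10

lemma wB_sum (N : ℕ) (hN : 2 ≤ N) : ∑ n ∈ Icc 1 (2 * N), wB N n ≤ ∑ p ∈ pr N (1 / 8) (1 / 3), fP N p := by
  classical
  have h1 : ∑ n ∈ Icc 1 (2 * N), wB N n ≤
      ∑ j ∈ range (200 * (Nat.log 2 N + 1)), ((c1 N j).card : ℝ) * (c2 N j).card := by
    unfold wB
    rw [sum_comm]
    refine sum_le_sum fun j _ => ?_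
    have h2 : ∑ n ∈ Icc 1 (2 * N), (((c1 N j) ×ˢ (c2 N j)).filter (fun v => v.1 * v.2 = n)).card ≤
        (c1 N j).card * (c2 N j).card := by
      rw [sum_card_fiberwise_eq_card_filter, ← card_product]
      exact card_le_card (filter_subset _ _)
    exact_mod_cast h2
  refine h1.trans ?_
  have h3 : ∀ j, ((c1 N j).card : ℝ) * (c2 N j).card ≤ ∑ p ∈ c1 N j, fP N p := by
    intro j
    rw [← nsmul_eq_mul, ← sum_const]
    exact sum_le_sum fun p hp => c2_le (by omega) hp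
  refine (sum_le_sum fun j _ => h3 j).trans ?_
  have hmono : ∀ j j', j ≤ j' → gr N j ≤ gr N j' := by
    intro j j' hj
    unfold gr
    refine Nat.ceil_mono (mul_le_mul_of_nonneg_left ?_ (by positivity))
    exact pow_le_pow_right₀ (by norm_num) hj
  rw [← sum_biUnion]
  · refine sum_le_sum_of_subset_of_nonneg ?_ (fun p _ _ => fP_nonneg N p)
    intro p hp
    rw [mem_biUnion] at hp
    obtain ⟨j, -, hp⟩ := hp
    unfold c1 at hp
    rw [mem_filter, mem_Ico] at hp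
    obtain ⟨⟨k1, k2⟩, k3, k4⟩ := hp
    have hN1 : (1 : ℝ) ≤ N := by exact_mod_cast (by omega : 1 ≤ N)
    rw [mem_pr']
    refine ⟨⟨k3.pos, ?_⟩, k3, ?_, ?_⟩
    · have : (p : ℝ) ≤ N := by
        refine k4.le.trans ?_
        calc (N : ℝ) ^ (1 / 3 : ℝ) ≤ (N : ℝ) ^ (1 : ℝ) :=
              Real.rpow_le_rpow_of_exponent_le hN1 (by norm_num)
          _ = N := Real.rpow_one _
      exact_mod_cast this
    · rw [le_tt hN k3.pos]
      have k5 : gr N 0 ≤ p := (hmono 0 j (Nat.zero_le j)).trans k1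
      have k6 : (N : ℝ) ^ (1 / 8 : ℝ) * (201 / 200 : ℝ) ^ 0 ≤ gr N 0 := Nat.le_ceil _
      rw [pow_zero, mul_one] at k6
      exact k6.trans (by exact_mod_cast k5)
    · rw [tt_lt hN k3.pos]
      exact k4
  · intro j _ j' _ hne
    rw [Function.onFun, disjoint_left]
    intro p hp hp'
    unfold c1 at hp hp'
    rw [mem_filter, mem_Ico] at hp hp'
    rcases lt_or_gt_of_ne hne with h | h
    · have := hmono (j + 1) j' h
      omega
    · have := hmono (j' + 1) j h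
      omega

/-- the bound for the primes `p₁` of box `i` -/
lemma fP_le {N : ℕ} (hN : 2 ≤ N) (hM : ∀ a b : ℝ, 1 / 8 ≤ a → a ≤ b → b ≤ 1 →
    ∑ p ∈ pr N a b, 1 / (p : ℝ) ≤ Real.log (b / a) + 1 / 10 ^ 5)
    (hlog : Real.log (201 / 200) * 2880 < Real.log N) {x₀ : ℝ} (hx₀ : 2 ≤ x₀)
    (hp : ∀ x : ℝ, x₀ ≤ x → (Nat.primeCounting ⌊x⌋₊ : ℝ) ≤ 201 / 200 * (x / Real.log x))
    (hN0 : x₀ ≤ (N : ℝ) ^ (1 / 3 : ℝ)) {i : ℕ} (hi : i < 60) {p1 : ℕ}
    (h1 : p1 ∈ pr N ((36 + i : ℝ) / 288) ((37 + i : ℝ) / 288)) :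
    fP N p1 ≤ 1 / (p1 : ℝ) * (201 / 200 * (201 / 200) * (N / Real.log N) * G i) := by
  obtain ⟨-, hp1, h3, h4⟩ := mem_pr'.1 h1
  have hL : 0 < Real.log N := Real.log_pos (by exact_mod_cast (by omega : 1 < N))
  have hNR : (0 : ℝ) < N := by exact_mod_cast (by omega : 0 < N)
  have hp1R : (0 : ℝ) < p1 := by exact_mod_cast hp1.pos
  have hlr : 0 ≤ Real.log (201 / 200) := Real.log_nonneg (by norm_num)
  -- the primes `p₂`
  have hsub : P2 N p1 ⊆ pr N (1 / 3) ((av i 10 : ℝ) / 57600) := by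
    intro p hpm
    unfold P2 at hpm
    rw [mem_filter, mem_Icc] at hpm
    obtain ⟨k1, k2, k3, k4⟩ := hpm
    have hpR : (0 : ℝ) < p := by exact_mod_cast k2.pos
    refine mem_pr'.2 ⟨k1, k2, (le_tt hN k2.pos _).2 k3, ?_⟩
    have k5 := Real.log_le_log (by positivity) k4
    rw [Real.log_mul (by positivity) hp1R.ne', Real.log_mul (by norm_num) hNR.ne', Real.log_pow] at k5
    push_cast at k5
    have e1 : Real.log p1 = tt N p1 * Real.log N := by
      unfold tt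
      field_simp
    have e2 : Real.log p = tt N p * Real.log N := by
      unfold tt
      field_simp
    rw [e1, e2] at k5
    have k6 : (2 * tt N p + tt N p1 - 1 - 1 / 2880) * Real.log N < 0 := by nlinarith
    have k7 : 2 * tt N p + tt N p1 - 1 - 1 / 2880 < 0 := by
      by_contra h
      push Not at h
      exact absurd k6 (not_lt.2 (mul_nonneg h hL.le))
    have e3 : (av i 10 : ℝ) = 25210 - 100 * i := by
      unfold av wd
      rw [Nat.cast_add, Nat.cast_mul, Nat.cast_sub (by omega)]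
      push_cast
      ring
    rw [e3]
    linarith
  have hterm : ∀ p ∈ P2 N p1, (Nat.primeCounting ⌊(201 / 200 * N : ℝ) / (p1 * p)⌋₊ : ℝ) ≤
      1 / (p1 : ℝ) * (201 / 200 * (201 / 200) * (N / Real.log N)) *
        (1 / (p : ℝ) * (1 / (1 - tt N p1 - tt N p))) := by
    intro p hpm
    have k8 := mem_pr'.1 (hsub hpm)
    unfold P2 at hpm
    rw [mem_filter, mem_Icc] at hpm
    obtain ⟨k1, k2, k3, k4⟩ := hpm
    have hpR : (0 : ℝ) < p := by exact_mod_cast k2.pos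
    obtain ⟨x, hx⟩ : ∃ x : ℝ, x = (201 / 200 * N : ℝ) / (p1 * p) := ⟨_, rfl⟩
    have hxp : (p : ℝ) ≤ x := by
      rw [hx, le_div_iff₀ (by positivity)]
      linarith
    have hxx : x₀ ≤ x := hN0.trans (k3.trans hxp)
    have hden : 0 < 1 - tt N p1 - tt N p := by
      obtain ⟨d1, d2⟩ := Dv_cast hi (by norm_num : 9 < 10)
      have d3 : (0 : ℝ) < Dv i 9 := by exact_mod_cast d2
      have d4 : (0 : ℝ) < (Dv i 9 : ℝ) / 57600 := by positivity
      rw [d1] at d4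
      norm_num at d4
      have := k8.2.2.2
      linarith
    have hlogx : Real.log N * (1 - tt N p1 - tt N p) ≤ Real.log x := by
      rw [hx, Real.log_div (by positivity) (by positivity), Real.log_mul (by norm_num) hNR.ne',
        Real.log_mul hp1R.ne' hpR.ne']
      have e1 : Real.log p1 = tt N p1 * Real.log N := by
        unfold tt
        field_simp
      have e2 : Real.log p = tt N p * Real.log N := by
        unfold tt
        field_simp
      rw [e1, e2]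
      nlinarith
    have hx0 : 0 < x := by linarith
    have h5 := hp x hxx
    rw [← hx]
    refine h5.trans ?_
    have h6 : x / Real.log x ≤ x / (Real.log N * (1 - tt N p1 - tt N p)) :=
      div_le_div_of_nonneg_left hx0.le (mul_pos hL hden) hlogx
    refine (mul_le_mul_of_nonneg_left h6 (by norm_num)).trans (le_of_eq ?_)
    rw [hx]
    field_simp
  unfold fP
  refine (sum_le_sum hterm).trans ?_
  rw [← mul_sum]
  have h7 : ∑ p ∈ P2 N p1, 1 / (p : ℝ) * (1 / (1 - tt N p1 - tt N p)) ≤ G i := by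
    refine le_trans (sum_le_sum_of_subset_of_nonneg hsub fun p hpm _ => ?_) (inner hM hi h4)
    obtain ⟨d1, d2⟩ := Dv_cast hi (by norm_num : 9 < 10)
    have d3 : (0 : ℝ) < Dv i 9 := by exact_mod_cast d2
    have d4 : (0 : ℝ) < (Dv i 9 : ℝ) / 57600 := by positivity
    rw [d1] at d4
    norm_num at d4
    have := (mem_pr'.1 hpm).2.2.2
    have hden : 0 < 1 - tt N p1 - tt N p := by linarith
    positivity
  have h8 : 0 ≤ 1 / (p1 : ℝ) * (201 / 200 * (201 / 200) * (N / Real.log N)) := by positivity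
  refine (mul_le_mul_of_nonneg_left h7 h8).trans (le_of_eq ?_)
  ring

theorem cnt : ∀ᶠ N : ℕ in atTop, ∑ n ∈ Icc 1 (2 * N), wB N n ≤ 379 / 1000 * (N / Real.log N) := by
  obtain ⟨x₀, hx₀, hp⟩ := pnt_up
  have hlim : Tendsto (fun N : ℕ => Real.log (N : ℝ)) atTop atTop :=
    Real.tendsto_log_atTop.comp tendsto_natCast_atTop_atTop
  have hpow : Tendsto (fun N : ℕ => (N : ℝ) ^ (1 / 3 : ℝ)) atTop atTop :=
    (tendsto_rpow_atTop (by norm_num)).comp tendsto_natCast_atTop_atTop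
  filter_upwards [mert, hlim.eventually_gt_atTop (Real.log (201 / 200) * 2880),
    hpow.eventually_ge_atTop x₀, eventually_ge_atTop 2] with N hM hlog hN0 hN
  have hL : 0 < Real.log N := Real.log_pos (by exact_mod_cast (by omega : 1 < N))
  refine (wB_sum N hN).trans ((outer hM (201 / 200 * (201 / 200) * (N / Real.log N)) (by positivity) _
    fun i hi p hpm => fP_le hN hM hlog hx₀ hp hN0 hi hpm).trans ?_)
  have h0 : 0 ≤ (N : ℝ) / Real.log N := by positivity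
  nlinarith

end Pool.Agent.J4.H52.CN
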